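import Pool.Agent.KZ.Lex

/-!
# KZ-Comb: every long word over a finite alphabet has a factor `uu` or `uvu` with `u`, `v` Lyndon

Minimal infinite factor closed language `M` of words without such factors (Zorn); `mn k` is the
smallest word of length `k` in `M`; these words are the prefixes of one infinite word.
-/

set_option autoImplicit false

namespace Pool.Agent.KZ

variable {α : Type*} [LinearOrder α]

/-- infinite factor closed languages -/
structure Lang (M : Set (List α)) : Prop where
  fac : ∀ u v : List α, v <:+: u → u ∈ M → v ∈ M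
  inf : ∀ N : ℕ, ∃ w ∈ M, w.length = N

omit [LinearOrder α] in
theorem finite_words [Finite α] (N : ℕ) : {w : List α | w.length = N}.Finite :=
  List.finite_length_eq α N

omit [LinearOrder α] in
/-- a chain of infinite factor closed languages has an infinite intersection -/
theorem Lang.sInter [Finite α] {c : Set (Set (List α))} (hc : IsChain (· ⊆ ·) c)
    (hne : c.Nonempty) (h : ∀ M ∈ c, Lang M) : Lang (⋂₀ c) := by
  refine ⟨fun u v huv hu M hM => (h M hM).fac u v huv (hu M hM), fun N => ?_⟩
  by_contra hcon
  push Not at hcon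
  have key : ∀ F : Set (List α), F.Finite → (∀ w ∈ F, w.length = N) →
      ∃ M ∈ c, ∀ w ∈ F, w ∉ M := by
    intro F hF
    induction F, hF using Set.Finite.induction_on with
    | empty =>
      intro _
      obtain ⟨M, hM⟩ := hne
      exact ⟨M, hM, fun w hw => absurd hw (Set.notMem_empty w)⟩
    | @insert a F ha hF ih =>
      intro hlen
      obtain ⟨M, hM, hMF⟩ := ih fun w hw => hlen w (Set.mem_insert_of_mem a hw)
      have ha2 : a ∉ ⋂₀ c := fun h' => hcon a h' (hlen a (Set.mem_insert a F))
      rw [Set.mem_sInter] at ha2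
      push Not at ha2
      obtain ⟨M', hM', haM'⟩ := ha2
      rcases hc.total hM hM' with hle | hle
      · refine ⟨M, hM, fun w hw => ?_⟩
        rcases Set.mem_insert_iff.1 hw with rfl | hw
        · exact fun h' => haM' (hle h')
        · exact hMF w hw
      · refine ⟨M', hM', fun w hw => ?_⟩
        rcases Set.mem_insert_iff.1 hw with rfl | hw
        · exact haM'
        · exact fun h' => hMF w hw (hle h')
  obtain ⟨M, hM, hMF⟩ := key _ (finite_words N) fun w hw => hw
  obtain ⟨w, hw, hwN⟩ := (h M hM).inf N
  exact hMF w hwN hw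

omit [LinearOrder α] in
/-- a minimal infinite factor closed language -/
theorem Lang.exists_minimal [Finite α] {G : Set (List α)} (hG : Lang G) :
    ∃ M : Set (List α), M ⊆ G ∧ Lang M ∧ ∀ M' : Set (List α), Lang M' → M' ⊆ M → M' = M := by
  obtain ⟨M, hM⟩ := zorn_superset {M : Set (List α) | M ⊆ G ∧ Lang M} (by
    intro c hcs hc
    rcases c.eq_empty_or_nonempty with rfl | hne
    · exact ⟨G, ⟨subset_rfl, hG⟩, fun s hs => absurd hs (Set.notMem_empty s)⟩
    · refine ⟨⋂₀ c, ⟨?_, Lang.sInter hc hne fun M hM => (hcs hM).2⟩, fun s hs =>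
        Set.sInter_subset_of_mem hs⟩
      obtain ⟨M, hM⟩ := hne
      exact (Set.sInter_subset_of_mem hM).trans (hcs hM).1)
  refine ⟨M, hM.1.1, hM.1.2, fun M' h1 h2 => ?_⟩
  exact subset_antisymm h2 (hM.2 ⟨h2.trans hM.1.1, h1⟩ h2)

section

variable {M : Set (List α)} (hM : Lang M)
  (hmin : ∀ M' : Set (List α), Lang M' → M' ⊆ M → M' = M)

include hM hmin

omit [LinearOrder α] in
/-- uniform recurrence -/
theorem recur {w : List α} (hw : w ∈ M) : ∃ K : ℕ, ∀ v ∈ M, K ≤ v.length → w <:+: v := by
  have h1 : ¬ Lang {v | v ∈ M ∧ ¬ w <:+: v} := by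
    intro h
    have h2 := hmin _ h fun v hv => hv.1
    have h3 : w ∈ {v | v ∈ M ∧ ¬ w <:+: v} := by rw [h2]; exact hw
    exact h3.2 List.infix_rfl
  have h2 : ∃ N : ℕ, ∀ v ∈ M, v.length = N → w <:+: v := by
    by_contra hcon
    push Not at hcon
    refine h1 ⟨fun u v huv hu => ⟨hM.fac u v huv hu.1, fun h => hu.2 (h.trans huv)⟩, fun N => ?_⟩
    obtain ⟨v, hv1, hv2, hv3⟩ := hcon N
    exact ⟨v, ⟨hv1, hv3⟩, hv2⟩
  obtain ⟨N, hN⟩ := h2
  refine ⟨N, fun v hv hlen => ?_⟩
  have h3 : v.take N <:+: v := (List.take_prefix N v).isInfix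
  exact (hN _ (hM.fac _ _ h3 hv) (by rw [List.length_take]; omega)).trans h3

omit [LinearOrder α] in
/-- words of the minimal language can be extended to the right -/
theorem ext_right {w : List α} (hw : w ∈ M) : ∃ a : α, w ++ [a] ∈ M := by
  obtain ⟨K, hK⟩ := recur hM hmin hw
  obtain ⟨v, hv, hvl⟩ := hM.inf (K + 1)
  obtain ⟨v', b, rfl⟩ : ∃ v' b, v = v' ++ [b] := by
    rcases List.eq_nil_or_concat v with rfl | ⟨v', b, rfl⟩
    · simp at hvl
    · exact ⟨v', b, List.concat_eq_append⟩
  have h1 : v' ∈ M := hM.fac _ _ (List.prefix_append v' [b]).isInfix hv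
  obtain ⟨p, s, hps⟩ := hK v' h1 (by
    rw [List.length_append, List.length_singleton] at hvl
    omega)
  obtain ⟨c, r, hcr⟩ : ∃ c r, s ++ [b] = c :: r := by
    cases s with
    | nil => exact ⟨b, [], rfl⟩
    | cons c s => exact ⟨c, s ++ [b], rfl⟩
  refine ⟨c, hM.fac _ _ ⟨p, r, ?_⟩ hv⟩
  rw [← hps]
  have : p ++ w ++ s ++ [b] = p ++ w ++ (s ++ [b]) := by simp
  rw [this, hcr]
  simp

end

section

variable [Finite α] {M : Set (List α)} (hM : Lang M)

include hM

theorem exists_mn (k : ℕ) : ∃ w : List α, (w ∈ M ∧ w.length = k) ∧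
    ∀ v ∈ M, v.length = k → w ≤ v := by
  have hfin : {w : List α | w ∈ M ∧ w.length = k}.Finite :=
    (finite_words k).subset fun w hw => hw.2
  obtain ⟨w0, hw0, hw0k⟩ := hM.inf k
  obtain ⟨w, hw, hmin⟩ := Set.exists_min_image _ id hfin ⟨w0, hw0, hw0k⟩
  exact ⟨w, hw, fun v hv hvk => hmin v ⟨hv, hvk⟩⟩

/-- the smallest word of length `k` of the language -/
noncomputable def mn (k : ℕ) : List α := (exists_mn hM k).choose

theorem mn_mem (k : ℕ) : mn hM k ∈ M := (exists_mn hM k).choose_spec.1.1

theorem mn_len (k : ℕ) : (mn hM k).length = k := (exists_mn hM k).choose_spec.1.2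

theorem mn_le {v : List α} (hv : v ∈ M) : mn hM v.length ≤ v :=
  (exists_mn hM v.length).choose_spec.2 v hv rfl

theorem mn_le' {v : List α} {k : ℕ} (hv : v ∈ M) (hk : v.length = k) : mn hM k ≤ v :=
  (exists_mn hM k).choose_spec.2 v hv hk

theorem mn_take_succ (hmin : ∀ M' : Set (List α), Lang M' → M' ⊆ M → M' = M) (k : ℕ) :
    (mn hM (k + 1)).take k = mn hM k := by
  refine le_antisymm ?_ ?_
  · obtain ⟨a, ha⟩ := ext_right hM hmin (mn_mem hM k)
    have h1 : mn hM (k + 1) ≤ mn hM k ++ [a] := mn_le' hM ha (by
      rw [List.length_append, mn_len, List.length_singleton])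
    have h2 := take_le_take' h1 k
    rwa [List.take_left' (mn_len hM k)] at h2
  · refine mn_le' hM (hM.fac _ _ (List.take_prefix _ _).isInfix (mn_mem hM _)) ?_
    rw [List.length_take, mn_len]
    omega

theorem mn_take (hmin : ∀ M' : Set (List α), Lang M' → M' ⊆ M → M' = M) {k l : ℕ} (h : k ≤ l) :
    (mn hM l).take k = mn hM k := by
  induction l, h using Nat.le_induction with
  | base => exact List.take_of_length_le (mn_len hM k).le
  | succ l hl ih =>
    rw [← ih, ← mn_take_succ hM hmin l, List.take_take, min_eq_left hl]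

/-- prefixes of the smallest infinite word -/
def Pre (p : List α) : Prop := p = mn hM p.length

theorem pre_mn (k : ℕ) : Pre hM (mn hM k) := by
  unfold Pre
  rw [mn_len]

theorem Pre.mem {p : List α} (h : Pre hM p) : p ∈ M := by
  rw [h]
  exact mn_mem hM _

theorem Pre.of_prefix (hmin : ∀ M' : Set (List α), Lang M' → M' ⊆ M → M' = M) {p q : List α}
    (h : Pre hM p) (hq : q <+: p) : Pre hM q := by
  unfold Pre at *
  have h1 : q = p.take q.length := List.prefix_iff_eq_take.1 hq
  conv_lhs => rw [h1, h]
  exact mn_take hM hmin hq.length_le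

theorem Pre.prefix_of_le (hmin : ∀ M' : Set (List α), Lang M' → M' ⊆ M → M' = M) {p q : List α}
    (hp : Pre hM p) (hq : Pre hM q) (h : q.length ≤ p.length) : q <+: p := by
  rw [List.prefix_iff_eq_take]
  unfold Pre at *
  rw [hp, mn_take hM hmin h]
  exact hq

/-- a factor which is at most the prefix of the same length is the prefix -/
theorem pre_of_le {v : List α} (hv : v ∈ M) (h : v ≤ mn hM v.length) : Pre hM v :=
  le_antisymm h (mn_le hM hv)

/-- a factor `v ≤ z` where `z` begins with a prefix of length `≥ |v|` is a prefix -/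
theorem pre_of_le_append (hmin : ∀ M' : Set (List α), Lang M' → M' ⊆ M → M' = M)
    {v z : List α} {k : ℕ} (hv : v ∈ M) (hz : mn hM k <+: z) (hk : v.length ≤ k) (h : v ≤ z) :
    Pre hM v := by
  refine pre_of_le hM hv ?_
  have h1 := take_le_take' h v.length
  rw [List.take_length] at h1
  obtain ⟨s, rfl⟩ := hz
  rw [List.take_append_of_le_length (by rw [mn_len]; exact hk), mn_take hM hmin hk] at h1
  exact h1

/-- a prefix which is not a Lyndon word has a border -/
theorem exists_border (hmin : ∀ M' : Set (List α), Lang M' → M' ⊆ M → M' = M) {p : List α}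
    (hp : Pre hM p) (hp0 : p ≠ []) (hL : ¬ Lyndon p) :
    ∃ g : List α, g ≠ [] ∧ g.length < p.length ∧ g <+: p ∧ g <:+ p := by
  unfold Lyndon at hL
  push Not at hL
  obtain ⟨u, v, huv, hu, hv, hle⟩ := hL hp0
  have hvp : v <:+ p := ⟨u, huv.symm⟩
  have hvM : v ∈ M := hM.fac _ _ hvp.isInfix hp.mem
  have hlen : v.length < p.length := by
    rw [huv, List.length_append]
    have := List.length_pos_iff.2 hu
    omega
  have hpre : Pre hM v := by
    refine pre_of_le_append hM hmin hvM (z := p) (k := p.length) ?_ hlen.le hle
    rw [← hp]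
  exact ⟨v, hv, hlen, hp.prefix_of_le hM hmin hpre hlen.le, hvp⟩

/-- a prefix which is not a Lyndon word has a Lyndon border -/
theorem exists_lyndon_border (hmin : ∀ M' : Set (List α), Lang M' → M' ⊆ M → M' = M) :
    ∀ (n : ℕ) (p : List α), p.length = n → Pre hM p → p ≠ [] → ¬ Lyndon p →
      ∃ g : List α, Lyndon g ∧ g.length < p.length ∧ g <+: p ∧ g <:+ p := by
  intro n
  induction n using Nat.strong_induction_on with
  | _ n ih =>
    intro p hn hp hp0 hL
    obtain ⟨g, hg0, hgl, hg1, hg2⟩ := exists_border hM hmin hp hp0 hL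
    by_cases hg : Lyndon g
    · exact ⟨g, hg, hgl, hg1, hg2⟩
    · obtain ⟨g', h1, h2, h3, h4⟩ := ih g.length (by omega) g rfl (hp.of_prefix hM hmin hg1) hg0 hg
      exact ⟨g', h1, by omega, h3.trans hg1, h4.trans hg2⟩

/-- there are arbitrarily long Lyndon prefixes -/
theorem exists_lyndon_pre (hmin : ∀ M' : Set (List α), Lang M' → M' ⊆ M → M' = M)
    (hbad : ∀ w ∈ M, ¬ Bad w) (K : ℕ) : ∃ k : ℕ, K ≤ k ∧ Lyndon (mn hM k) := by
  by_contra hcon
  push Not at hcon
  -- the longest Lyndon prefix
  have h1 : Lyndon (mn hM 1) := by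
    obtain ⟨a, ha⟩ := List.length_eq_one_iff.1 (mn_len hM 1)
    rw [ha]
    exact lyndon_singleton a
  obtain ⟨k, hk1, hkL, hkmax⟩ : ∃ k, 1 ≤ k ∧ Lyndon (mn hM k) ∧
      ∀ l, k < l → ¬ Lyndon (mn hM l) := by
    classical
    have hex : ∃ k, k ≤ K ∧ Lyndon (mn hM k) ∧ 1 ≤ k := by
      refine ⟨1, ?_, h1, le_refl 1⟩
      by_contra h
      exact hcon 1 (by omega) h1
    let P : ℕ → Prop := fun k => Lyndon (mn hM k) ∧ 1 ≤ k
    obtain ⟨k0, hk0K, hk0⟩ := hex
    have hP : P (Nat.findGreatest P K) := Nat.findGreatest_spec (P := P) hk0K hk0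
    refine ⟨Nat.findGreatest P K, hP.2, hP.1, fun l hl hL => ?_⟩
    have hlK : l ≤ K := by
      by_contra h
      exact hcon l (by omega) hL
    exact Nat.findGreatest_is_greatest hl hlK ⟨hL, by omega⟩
  -- periodicity
  have key : ∀ j, j ≤ k → mn hM (k + j) = mn hM k ++ mn hM j := by
    intro j
    induction j with
    | zero =>
      intro _
      have : mn hM 0 = [] := List.length_eq_zero_iff.1 (mn_len hM 0)
      rw [this, List.append_nil, Nat.add_zero]
    | succ j ih =>
      intro hj
      have ihj := ih (by omega)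
      -- last letters
      obtain ⟨a, ha⟩ : ∃ a, mn hM (k + (j + 1)) = mn hM k ++ mn hM j ++ [a] := by
        have h2 := mn_take hM hmin (show k + j ≤ k + (j + 1) by omega)
        have h3 := List.take_append_drop (k + j) (mn hM (k + (j + 1)))
        rw [h2, ihj] at h3
        have h4 : (List.drop (k + j) (mn hM (k + (j + 1)))).length = 1 := by
          rw [List.length_drop, mn_len]
          omega
        obtain ⟨a, ha⟩ := List.length_eq_one_iff.1 h4
        exact ⟨a, by rw [← h3, ha]⟩
      obtain ⟨b, hb⟩ : ∃ b, mn hM (j + 1) = mn hM j ++ [b] := by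
        have h2 := mn_take hM hmin (show j ≤ j + 1 by omega)
        have h3 := List.take_append_drop j (mn hM (j + 1))
        rw [h2] at h3
        have h4 : (List.drop j (mn hM (j + 1))).length = 1 := by
          rw [List.length_drop, mn_len]
          omega
        obtain ⟨b, hb⟩ := List.length_eq_one_iff.1 h4
        exact ⟨b, by rw [← h3, hb]⟩
      -- `b ≤ a`
      have hba : b ≤ a := by
        have h2 : mn hM j ++ [a] ∈ M := by
          refine hM.fac (mn hM (k + (j + 1))) _ ?_ (mn_mem hM _)
          rw [ha, List.append_assoc]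
          exact (List.suffix_append _ _).isInfix
        have h3 := mn_le' hM h2 (k := j + 1) (by
          rw [List.length_append, mn_len, List.length_singleton])
        rw [hb, append_le_append_left_iff'] at h3
        rcases cons_le_cons_iff'.1 h3 with h | ⟨h, -⟩
        · exact h.le
        · exact h.le
      -- the border
      have hpre := pre_mn hM (k + (j + 1))
      have hne : mn hM (k + (j + 1)) ≠ [] := by
        intro h
        have := congrArg List.length h
        rw [mn_len] at this
        simp at this
      obtain ⟨g, hg0, hgl, hg1, hg2⟩ := exists_border hM hmin hpre hne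
        (hkmax _ (by omega))
      have hgpre : Pre hM g := hpre.of_prefix hM hmin hg1
      have hglen := List.length_pos_iff.2 hg0
      rw [mn_len] at hgl
      have hab : a ≤ b := by
        by_cases hcase : g.length ≤ j + 1
        · -- `g` is a suffix of `mn j ++ [a]`
          have hs1 : g <:+ mn hM j ++ [a] := by
            refine List.suffix_of_suffix_length_le hg2 ?_ ?_
            · rw [ha, List.append_assoc]
              exact List.suffix_append _ _
            · rw [List.length_append, mn_len, List.length_singleton]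
              exact hcase
          obtain ⟨s, hs⟩ : ∃ s, g = s ++ [a] := by
            rcases List.eq_nil_or_concat g with h | ⟨s, c, h⟩
            · exact absurd h hg0
            · rw [List.concat_eq_append] at h
              refine ⟨s, ?_⟩
              have h5 : [c] <:+ mn hM j ++ [a] := by
                refine List.IsSuffix.trans ?_ hs1
                rw [h]
                exact List.suffix_append _ _
              have h6 : [a] <:+ mn hM j ++ [a] := List.suffix_append _ _
              have h7 := List.suffix_of_suffix_length_le h5 h6 (by simp)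
              have h8 := h7.eq_of_length (by simp)
              rw [h, h8]
          have hs2 : s <:+ mn hM j := by
            obtain ⟨t, ht⟩ := hs1
            rw [hs, ← List.append_assoc] at ht
            exact ⟨t, (List.append_inj' ht rfl).1⟩
          have hs3 : s ++ [b] ∈ M := by
            refine hM.fac (mn hM (j + 1)) _ ?_ (mn_mem hM _)
            rw [hb]
            obtain ⟨t, ht⟩ := hs2
            rw [← ht, List.append_assoc]
            exact (List.suffix_append _ _).isInfix
          have h9 : g ≤ s ++ [b] := by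
            have h10 := mn_le' hM hs3 (k := g.length) (by
              rw [hs, List.length_append, List.length_append, List.length_singleton,
                List.length_singleton])
            have h11 : g = mn hM g.length := hgpre
            rw [h11]
            exact h10
          rw [hs, append_le_append_left_iff'] at h9
          rcases cons_le_cons_iff'.1 h9 with h | ⟨h, -⟩
          · exact h.le
          · exact h.le
        · -- a border of the Lyndon word `mn k`
          exfalso
          push Not at hcase
          have h5 : mn hM j ++ [a] <:+ g := by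
            refine List.suffix_of_suffix_length_le (l₃ := mn hM (k + (j + 1))) ?_ hg2 ?_
            · rw [ha, List.append_assoc]
              exact List.suffix_append _ _
            · rw [List.length_append, mn_len, List.length_singleton]
              exact hcase.le
          obtain ⟨t, ht⟩ := h5
          have ht0 : t ≠ [] := by
            rintro rfl
            rw [List.nil_append] at ht
            have := congrArg List.length ht
            rw [List.length_append, mn_len, List.length_singleton] at this
            omega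
          have htlen : t.length < k := by
            have := congrArg List.length ht
            rw [List.length_append, List.length_append, mn_len, List.length_singleton] at this
            omega
          have ht1 : t <:+ mn hM k := by
            obtain ⟨r, hr⟩ := hg2
            rw [← ht, ha, List.append_assoc, ← List.append_assoc r t] at hr
            exact ⟨r, (List.append_inj' hr rfl).1⟩
          have ht2 : t <+: mn hM k := by
            have h6 : Pre hM t := by
              refine hgpre.of_prefix hM hmin ?_
              rw [← ht]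
              exact List.prefix_append _ _
            refine (pre_mn hM k).prefix_of_le hM hmin h6 ?_
            rw [mn_len]
            exact htlen.le
          refine hkL.no_border ht0 ?_ ht2 ht1
          intro h
          rw [h, mn_len] at htlen
          exact lt_irrefl _ htlen
      rw [ha, hb, le_antisymm hab hba, List.append_assoc]
  have h2 := key k (le_refl k)
  refine hbad _ (mn_mem hM (k + k)) (Or.inl ⟨mn hM k, hkL, ?_⟩)
  rw [h2]

end

/-- **Unavoidable regularities**: every long word over a finite alphabet has a factor `uu` or `uvu`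
with Lyndon words `u`, `v`. -/
theorem unavoidable [Finite α] : ∃ N : ℕ, ∀ w : List α, N ≤ w.length → Bad w := by
  classical
  by_contra hcon
  push Not at hcon
  have hG : Lang {w : List α | ¬ Bad w} := by
    refine ⟨fun u v huv hu hv => hu (hv.mono huv), fun N => ?_⟩
    obtain ⟨w, hw1, hw2⟩ := hcon N
    refine ⟨w.take N, fun h => hw2 (h.mono (List.take_prefix N w).isInfix), ?_⟩
    rw [List.length_take]
    omega
  obtain ⟨M, hMG, hM, hmin⟩ := hG.exists_minimal
  have hbad : ∀ w ∈ M, ¬ Bad w := fun w hw => hMG hw
  -- the level `K0`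
  have hK0 : ∃ K0 : ℕ, 1 ≤ K0 ∧ ∀ a : α, a :: mn hM K0 ∈ M → ∀ k, a :: mn hM k ∈ M := by
    have h1 : ∀ a : α, ∃ ka : ℕ, a :: mn hM ka ∈ M → ∀ k, a :: mn hM k ∈ M := by
      intro a
      by_cases h : ∀ k, a :: mn hM k ∈ M
      · exact ⟨0, fun _ => h⟩
      · push Not at h
        obtain ⟨ka, hka⟩ := h
        exact ⟨ka, fun h' => absurd h' hka⟩
    choose f hf using h1
    obtain ⟨B, hB⟩ : ∃ B, ∀ a, f a ≤ B := by
      have := Fintype.ofFinite α
      exact ⟨Finset.univ.sup f, fun a => Finset.le_sup (f := f) (Finset.mem_univ a)⟩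
    refine ⟨B + 1, by omega, fun a ha => hf a ?_⟩
    refine hM.fac _ _ ?_ ha
    have h2 : mn hM (f a) <+: mn hM (B + 1) :=
      (pre_mn hM _).prefix_of_le hM hmin (pre_mn hM _) (by
        rw [mn_len, mn_len]
        have := hB a
        omega)
    obtain ⟨t, ht⟩ := h2
    refine ⟨[], t, ?_⟩
    rw [← ht]
    simp
  obtain ⟨K0, hK01, hE⟩ := hK0
  -- the Lyndon prefix `w` with a second occurrence of `mn K0`
  obtain ⟨K, hK⟩ := recur hM hmin (mn_mem hM K0)
  obtain ⟨k, hk, hkL⟩ := exists_lyndon_pre hM hmin hbad (K + 1)
  obtain ⟨w, hw⟩ : ∃ w, w = mn hM k := ⟨_, rfl⟩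
  have hwpre : Pre hM w := by rw [hw]; exact pre_mn hM k
  have hwL : Lyndon w := by rw [hw]; exact hkL
  have hwlen : w.length = k := by rw [hw]; exact mn_len hM k
  obtain ⟨c, w', hcw⟩ : ∃ c w', w = c :: w' := by
    cases w with
    | nil =>
      simp at hwlen
      omega
    | cons c w' => exact ⟨c, w', rfl⟩
  have hw'M : w' ∈ M := hM.fac w w' (by rw [hcw]; exact (List.suffix_cons c w').isInfix) hwpre.mem
  obtain ⟨s1, s2, hs⟩ := hK w' hw'M (by
    have := congrArg List.length hcw
    rw [List.length_cons] at this
    omega)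
  have hzs : mn hM K0 ++ s2 <:+ w := by
    refine ⟨c :: s1, ?_⟩
    rw [hcw, ← hs]
    simp
  have hz0 : mn hM K0 ++ s2 ≠ [] := by
    intro h
    have := congrArg List.length h
    rw [List.length_append, mn_len] at this
    simp at this
    omega
  have hzw : mn hM K0 ++ s2 ≠ w := by
    intro h
    have h1 := congrArg List.length h
    have h2 := congrArg List.length hcw
    have h3 := congrArg List.length hs
    simp only [List.length_append, List.length_cons] at h1 h2 h3
    omega
  obtain ⟨V, hV0, hVw, hVs, hVmin⟩ := exists_min_suffix hz0 hzw hzs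
  have hVM : V ∈ M := hM.fac _ _ hVs.isInfix hwpre.mem
  have hVz : V ≤ mn hM K0 ++ s2 := hVmin _ hz0 hzw hzs
  have hVlen : V.length < w.length := by
    refine lt_of_le_of_ne hVs.length_le fun h => hVw (hVs.eq_of_length h)
  -- `V` is not a prefix
  have hVnp : ¬ Pre hM V := fun h =>
    hwL.no_border hV0 hVw (hwpre.prefix_of_le hM hmin h hVlen.le) hVs
  -- `V` begins with `mn K0`
  have hVK : mn hM K0 <+: V := by
    by_cases hcase : V.length ≤ K0
    · exact absurd (pre_of_le_append hM hmin hVM (List.prefix_append _ _) hcase hVz) hVnp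
    · push Not at hcase
      have h1 := take_le_take' hVz K0
      rw [List.take_left' (mn_len hM K0)] at h1
      have h2 : mn hM K0 ≤ V.take K0 := mn_le' hM
        (hM.fac _ _ (List.take_prefix K0 V).isInfix hVM) (by
          rw [List.length_take]
          omega)
      rw [le_antisymm h2 h1]
      exact List.take_prefix K0 V
  -- the letter before `V`
  obtain ⟨W, hW⟩ := hVs
  obtain ⟨W0, a, hWa⟩ : ∃ W0 a, W = W0 ++ [a] := by
    rcases List.eq_nil_or_concat W with h | ⟨W0, a, h⟩
    · rw [h, List.nil_append] at hW
      exact absurd hW hVw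
    · exact ⟨W0, a, by rw [h, List.concat_eq_append]⟩
  rw [hWa] at hW
  have haE : ∀ k, a :: mn hM k ∈ M := by
    refine hE a (hM.fac w _ ?_ hwpre.mem)
    obtain ⟨t, ht⟩ := hVK
    refine ⟨W0, t, ?_⟩
    rw [← hW, ← ht]
    simp
  have hWpre : Pre hM (W0 ++ [a]) := by
    refine hwpre.of_prefix hM hmin ?_
    rw [← hW]
    exact List.prefix_append _ _
  have haW : a :: (W0 ++ [a]) ∈ M := by
    have h1 := haE (W0 ++ [a]).length
    have h2 : W0 ++ [a] = mn hM (W0 ++ [a]).length := hWpre
    rw [h2]
    exact h1
  have hW0ne : W0 ≠ [] := by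
    rintro rfl
    refine hbad _ haW (Or.inl ⟨[a], lyndon_singleton a, ?_⟩)
    simp
  have hW0L : ¬ Lyndon W0 := by
    intro hL
    refine hbad _ haW (Or.inr ⟨[a], W0, lyndon_singleton a, hL, ?_⟩)
    simp
  have hW0pre : Pre hM W0 := hWpre.of_prefix hM hmin (List.prefix_append _ _)
  obtain ⟨g, hgL, hgl, hg1, hg2⟩ := exists_lyndon_border hM hmin _ W0 rfl hW0pre hW0ne hW0L
  have hgpre : Pre hM g := hW0pre.of_prefix hM hmin hg1
  -- the suffix `g a V`
  have hU : g ++ [a] ++ V <:+ w := by
    obtain ⟨t, ht⟩ := hg2
    refine ⟨t, ?_⟩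
    rw [← hW, ← ht]
    simp
  have hUw : g ++ [a] ++ V ≠ w := by
    intro h
    have h1 := congrArg List.length h
    have h2 := congrArg List.length hW
    simp only [List.length_append] at h1 h2
    omega
  have hVU : V ≤ g ++ [a] ++ V := hVmin _ (by simp) hUw hU
  by_cases hcase : V.length < g.length
  · refine hVnp (pre_of_le_append hM hmin (z := g ++ [a] ++ V) (k := g.length) hVM ?_ hcase.le hVU)
    have h1 : g = mn hM g.length := hgpre
    rw [← h1, List.append_assoc]
    exact List.prefix_append _ _
  · push Not at hcase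
    have h1 := take_le_take' hVU g.length
    rw [List.append_assoc, List.take_left] at h1
    have h2 : g ≤ V.take g.length := by
      have h3 := mn_le' hM (hM.fac _ _ (List.take_prefix g.length V).isInfix hVM)
        (k := g.length) (by
          rw [List.length_take]
          omega)
      have h4 : g = mn hM g.length := hgpre
      rw [← h4] at h3
      exact h3
    have h3 : g <+: V := by
      have h5 : g = V.take g.length := le_antisymm h2 h1
      rw [h5]
      exact List.take_prefix _ V
    obtain ⟨t, ht⟩ := h3
    refine hbad w hwpre.mem (Or.inr ⟨g, [a], hgL, lyndon_singleton a, ?_⟩)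
    refine List.IsInfix.trans ?_ hU.isInfix
    refine ⟨[], t, ?_⟩
    rw [List.nil_append]
    conv_rhs => rw [← ht]
    simp

end Pool.Agent.KZ
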