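import Mathlib

/-!
# KZ-Lex: lexicographic order on words, Lyndon words

`Lyndon w`: `w` is nonempty and smaller than all its proper nonempty suffixes.
`Lyndon.exists_factorization`: the standard factorisation of a Lyndon word.
`Bad w`: `w` has a factor `uu` or `uvu` with `u`, `v` Lyndon.
-/

set_option autoImplicit false

namespace Pool.Agent.KZ

variable {α : Type*} [LinearOrder α]

theorem cons_le_cons_iff' {a b : α} {u v : List α} :
    (a :: u) ≤ (b :: v) ↔ a < b ∨ a = b ∧ u ≤ v := by
  rw [le_iff_lt_or_eq, List.cons_lt_cons_iff, le_iff_lt_or_eq, List.cons.injEq]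
  constructor
  · rintro ((h | ⟨h1, h2⟩) | ⟨h1, h2⟩)
    · exact Or.inl h
    · exact Or.inr ⟨h1, Or.inl h2⟩
    · exact Or.inr ⟨h1, Or.inr h2⟩
  · rintro (h | ⟨h1, h2 | h2⟩)
    · exact Or.inl (Or.inl h)
    · exact Or.inl (Or.inr ⟨h1, h2⟩)
    · exact Or.inr ⟨h1, h2⟩

theorem nil_le' (u : List α) : ([] : List α) ≤ u := by
  cases u with
  | nil => exact le_refl _
  | cons a u => exact le_of_lt (List.nil_lt_cons a u)

theorem le_nil' {u : List α} (h : u ≤ []) : u = [] := by
  cases u with
  | nil => rfl
  | cons a u => exact absurd (List.nil_lt_cons a u) (not_lt.2 h)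

/-- taking prefixes is monotone -/
theorem take_le_take' {u v : List α} (h : u ≤ v) (k : ℕ) : u.take k ≤ v.take k := by
  induction k generalizing u v with
  | zero => simp
  | succ k ih =>
    cases u with
    | nil => exact nil_le' _
    | cons a u =>
      cases v with
      | nil => exact absurd (le_nil' h) (by simp)
      | cons b v =>
        rw [List.take_succ_cons, List.take_succ_cons, cons_le_cons_iff']
        rcases cons_le_cons_iff'.1 h with h | ⟨h1, h2⟩
        · exact Or.inl h
        · exact Or.inr ⟨h1, ih h2⟩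

theorem append_lt_append_left_iff (p : List α) {u v : List α} : p ++ u < p ++ v ↔ u < v := by
  induction p with
  | nil => simp
  | cons a p ih => simp [ih]

theorem append_le_append_left_iff' (p : List α) {u v : List α} : p ++ u ≤ p ++ v ↔ u ≤ v := by
  rw [← not_lt, ← not_lt, append_lt_append_left_iff]

theorem le_append_self (u s : List α) : u ≤ u ++ s := by
  conv_lhs => rw [← List.append_nil u]
  rw [append_le_append_left_iff']
  exact nil_le' s

theorem prefix_le' {u v : List α} (h : u <+: v) : u ≤ v := by
  obtain ⟨s, rfl⟩ := h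
  exact le_append_self u s

theorem append_lt_append_of_lt {u v : List α} (h : u < v) (hl : u.length = v.length)
    (s t : List α) : u ++ s < v ++ t := by
  induction u generalizing v with
  | nil =>
    have : v = [] := List.length_eq_zero_iff.1 hl.symm
    rw [this] at h
    exact absurd h (lt_irrefl _)
  | cons a u ih =>
    cases v with
    | nil => exact absurd hl (by simp)
    | cons b v =>
      rw [List.cons_append, List.cons_append, List.cons_lt_cons_iff]
      rcases List.cons_lt_cons_iff.1 h with h | ⟨h1, h2⟩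
      · exact Or.inl h
      · exact Or.inr ⟨h1, ih h2 (by simpa using hl)⟩

theorem append_le_append_of_le {u v s t : List α} (h : u ≤ v) (hl : u.length = v.length)
    (hs : s ≤ t) : u ++ s ≤ v ++ t := by
  rcases le_iff_lt_or_eq.1 h with h | rfl
  · exact le_of_lt (append_lt_append_of_lt h hl s t)
  · exact (append_le_append_left_iff' u).2 hs

theorem append_lt_append_of_le_of_lt {u v s t : List α} (h : u ≤ v) (hl : u.length = v.length)
    (hs : s < t) : u ++ s < v ++ t := by
  rcases le_iff_lt_or_eq.1 h with h | rfl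
  · exact append_lt_append_of_lt h hl s t
  · exact (append_lt_append_left_iff u).2 hs

/-- Lyndon words: smaller than all proper nonempty suffixes -/
def Lyndon (w : List α) : Prop :=
  w ≠ [] ∧ ∀ u v : List α, w = u ++ v → u ≠ [] → v ≠ [] → w < v

theorem lyndon_singleton (a : α) : Lyndon [a] := by
  refine ⟨by simp, fun u v h hu hv => ?_⟩
  exfalso
  have h1 := congrArg List.length h
  rw [List.length_append] at h1
  have h2 := List.length_pos_iff.2 hu
  have h3 := List.length_pos_iff.2 hv
  simp only [List.length_singleton] at h1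
  omega

/-- a Lyndon word has no border -/
theorem Lyndon.no_border {p g : List α} (hp : Lyndon p) (hg : g ≠ []) (hgp : g ≠ p)
    (h1 : g <+: p) (h2 : g <:+ p) : False := by
  obtain ⟨u, rfl⟩ := h2
  have hu : u ≠ [] := by
    rintro rfl
    exact hgp rfl
  have := hp.2 u g rfl hu hg
  exact absurd (prefix_le' h1) (not_le.2 this)

/-- the smallest proper nonempty suffix -/
theorem exists_min_suffix {w z : List α} (hz : z ≠ []) (hzw : z ≠ w) (hs : z <:+ w) :
    ∃ V : List α, V ≠ [] ∧ V ≠ w ∧ V <:+ w ∧
      ∀ U : List α, U ≠ [] → U ≠ w → U <:+ w → V ≤ U := by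
  have hfin : {V : List α | V ≠ [] ∧ V ≠ w ∧ V <:+ w}.Finite := by
    refine Set.Finite.subset (List.finite_toSet w.tails) ?_
    rintro V ⟨-, -, h⟩
    exact (List.mem_tails V w).2 h
  obtain ⟨V, hV, hmin⟩ := Set.exists_min_image _ id hfin ⟨z, hz, hzw, hs⟩
  exact ⟨V, hV.1, hV.2.1, hV.2.2, fun U h1 h2 h3 => hmin U ⟨h1, h2, h3⟩⟩

theorem ne_of_append_left_ne_nil {u v : List α} (hu : u ≠ []) : v ≠ u ++ v := by
  intro h
  have h1 := congrArg List.length h
  rw [List.length_append] at h1
  have h2 := List.length_pos_iff.2 hu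
  omega

/-- standard factorisation -/
theorem Lyndon.exists_factorization {w : List α} (hw : Lyndon w) (h2 : 2 ≤ w.length) :
    ∃ W V : List α, w = W ++ V ∧ Lyndon W ∧ Lyndon V ∧ W ++ V < V ++ W := by
  obtain ⟨c, z, rfl⟩ : ∃ c z, w = c :: z := by
    cases w with
    | nil => simp at h2
    | cons c z => exact ⟨c, z, rfl⟩
  have hz : z ≠ [] := by
    rintro rfl
    simp at h2
  have hzw : z ≠ c :: z := by
    intro h
    have := congrArg List.length h
    simp at this
  obtain ⟨V, hV0, hVw, ⟨W, hW⟩, hmin⟩ := exists_min_suffix hz hzw (List.suffix_cons c z)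
  generalize c :: z = w at *
  subst hW
  have hW0 : W ≠ [] := by
    rintro rfl
    exact hVw rfl
  have hVW : W ++ V < V ++ W := lt_of_lt_of_le (hw.2 W V rfl hW0 hV0) (le_append_self V W)
  refine ⟨W, V, rfl, ⟨hW0, ?_⟩, ⟨hV0, ?_⟩, hVW⟩
  · rintro s t rfl hs ht
    by_contra hc
    have hle : t ≤ s ++ t := not_lt.1 hc
    have hlt : s ++ t ++ V < t ++ V := by
      refine hw.2 s (t ++ V) (by simp) hs ?_
      simp [ht]
    have h3 : (s ++ t).take t.length ≤ t := by
      have h4 := take_le_take' hlt.le t.length
      rw [List.take_left, List.take_append_of_le_length (by simp)] at h4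
      exact h4
    have h5 : t ≤ (s ++ t).take t.length := by
      have h6 := take_le_take' hle t.length
      rwa [List.take_length] at h6
    have h7 : (s ++ t).take t.length = t := le_antisymm h3 h5
    obtain ⟨r, hr⟩ : ∃ r, s ++ t = t ++ r := ⟨(s ++ t).drop t.length, by
      conv_lhs => rw [← List.take_append_drop t.length (s ++ t), h7]⟩
    rw [hr, List.append_assoc, append_lt_append_left_iff] at hlt
    have hr0 : r ≠ [] := by
      rintro rfl
      have := congrArg List.length hr
      simp only [List.length_append, List.append_nil] at this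
      have h8 := List.length_pos_iff.2 hs
      omega
    refine absurd (hmin (r ++ V) (by simp [hr0]) ?_ ?_) (not_le.2 hlt)
    · rw [hr, List.append_assoc]
      exact ne_of_append_left_ne_nil ht
    · rw [hr, List.append_assoc]
      exact List.suffix_append t (r ++ V)
  · rintro s t rfl hs ht
    have h3 : s ++ t ≤ t := by
      refine hmin t ht ?_ ?_
      · rw [← List.append_assoc]
        exact ne_of_append_left_ne_nil (by simp [hs])
      · rw [← List.append_assoc]
        exact List.suffix_append _ _
    exact lt_of_le_of_ne h3 (ne_of_append_left_ne_nil hs).symm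

/-- the word has a factor `uu` or `uvu` with `u`, `v` Lyndon -/
def Bad (w : List α) : Prop :=
  (∃ u : List α, Lyndon u ∧ u ++ u <:+: w) ∨
    ∃ u v : List α, Lyndon u ∧ Lyndon v ∧ u ++ v ++ u <:+: w

theorem Bad.mono {w w' : List α} (h : Bad w) (hw : w <:+: w') : Bad w' := by
  rcases h with ⟨u, h1, h2⟩ | ⟨u, v, h1, h2, h3⟩
  · exact Or.inl ⟨u, h1, h2.trans hw⟩
  · exact Or.inr ⟨u, v, h1, h2, h3.trans hw⟩

end Pool.Agent.KZ
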