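import Pool.Agent.KZ.Comb

/-!
# KZ-Main: the Kostrikin-Zelmanov sandwich theorem

`R` a ring (no commutativity, no characteristic), `x : α → R`, `α` finite, `M ⊆ R` contains the
`x i` and is closed under commutators, `a * a = 0` and `a * b * a = 0` for `a, b ∈ M`.  Then all
products of `N` of the `x i` vanish, `N` depends only on `α`.
-/

set_option autoImplicit false

namespace Pool.Agent.KZ

section Algebra

variable {α : Type*} [LinearOrder α] {R : Type*} [Ring R] (x : α → R)

/-- the product of a word -/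
def ev (w : List α) : R := (w.map x).prod

theorem ev_append (u v : List α) : ev x (u ++ v) = ev x u * ev x v := by
  unfold ev
  rw [List.map_append, List.prod_append]

/-- combinations of words `≥ w` of the same length -/
def GE (w : List α) : AddSubgroup R :=
  AddSubgroup.closure {r | ∃ w' : List α, w'.length = w.length ∧ w ≤ w' ∧ r = ev x w'}

/-- combinations of words `> w` of the same length -/
def GT (w : List α) : AddSubgroup R :=
  AddSubgroup.closure {r | ∃ w' : List α, w'.length = w.length ∧ w < w' ∧ r = ev x w'}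

theorem ev_mem_GE (w : List α) : ev x w ∈ GE x w :=
  AddSubgroup.subset_closure ⟨w, rfl, le_refl w, rfl⟩

theorem GT_le_GE (w : List α) : GT x w ≤ GE x w := by
  refine (AddSubgroup.closure_le _).2 ?_
  rintro r ⟨w', h1, h2, rfl⟩
  exact AddSubgroup.subset_closure ⟨w', h1, h2.le, rfl⟩

omit [LinearOrder α] in
/-- products of closures -/
theorem mul_mem_closure {A B C : Set R} (h : ∀ a ∈ A, ∀ b ∈ B, a * b ∈ AddSubgroup.closure C)
    {r s : R} (hr : r ∈ AddSubgroup.closure A) (hs : s ∈ AddSubgroup.closure B) :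
    r * s ∈ AddSubgroup.closure C := by
  induction hr using AddSubgroup.closure_induction with
  | mem a ha =>
    induction hs using AddSubgroup.closure_induction with
    | mem b hb => exact h a ha b hb
    | zero => rw [mul_zero]; exact AddSubgroup.zero_mem _
    | add b b' _ _ h1 h2 => rw [mul_add]; exact AddSubgroup.add_mem _ h1 h2
    | neg b _ h1 => rw [mul_neg]; exact AddSubgroup.neg_mem _ h1
  | zero => rw [zero_mul]; exact AddSubgroup.zero_mem _
  | add a a' _ _ h1 h2 => rw [add_mul]; exact AddSubgroup.add_mem _ h1 h2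
  | neg a _ h1 => rw [neg_mul]; exact AddSubgroup.neg_mem _ h1

theorem GE_mul_GE {u v : List α} {r s : R} (hr : r ∈ GE x u) (hs : s ∈ GE x v) :
    r * s ∈ GE x (u ++ v) := by
  refine mul_mem_closure ?_ hr hs
  rintro _ ⟨u', h1, h2, rfl⟩ _ ⟨v', h3, h4, rfl⟩
  refine AddSubgroup.subset_closure ⟨u' ++ v', ?_, ?_, (ev_append x u' v').symm⟩
  · rw [List.length_append, List.length_append, h1, h3]
  · exact append_le_append_of_le h2 h1.symm h4

theorem GT_mul_GE {u v : List α} {r s : R} (hr : r ∈ GT x u) (hs : s ∈ GE x v) :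
    r * s ∈ GT x (u ++ v) := by
  refine mul_mem_closure ?_ hr hs
  rintro _ ⟨u', h1, h2, rfl⟩ _ ⟨v', h3, h4, rfl⟩
  refine AddSubgroup.subset_closure ⟨u' ++ v', ?_, ?_, (ev_append x u' v').symm⟩
  · rw [List.length_append, List.length_append, h1, h3]
  · exact append_lt_append_of_lt h2 h1.symm _ _

theorem GE_mul_GT {u v : List α} {r s : R} (hr : r ∈ GE x u) (hs : s ∈ GT x v) :
    r * s ∈ GT x (u ++ v) := by
  refine mul_mem_closure ?_ hr hs
  rintro _ ⟨u', h1, h2, rfl⟩ _ ⟨v', h3, h4, rfl⟩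
  refine AddSubgroup.subset_closure ⟨u' ++ v', ?_, ?_, (ev_append x u' v').symm⟩
  · rw [List.length_append, List.length_append, h1, h3]
  · exact append_lt_append_of_le_of_lt h2 h1.symm h4

theorem GE_le_GT {u v : List α} (hl : u.length = v.length) (h : u < v) : GE x v ≤ GT x u := by
  refine (AddSubgroup.closure_le _).2 ?_
  rintro r ⟨w', h1, h2, rfl⟩
  exact AddSubgroup.subset_closure ⟨w', by rw [h1, hl], lt_of_lt_of_le h h2, rfl⟩

variable {x}

/-- an element `u + greater words` -/
theorem mem_GE_of_sub {w : List α} {m : R} (h : m - ev x w ∈ GT x w) : m ∈ GE x w := by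
  have := AddSubgroup.add_mem _ (GT_le_GE x w h) (ev_mem_GE x w)
  rwa [sub_add_cancel] at this

theorem sub_mul {u v : List α} {m n : R} (hm : m - ev x u ∈ GT x u) (hn : n - ev x v ∈ GT x v) :
    m * n - ev x (u ++ v) ∈ GT x (u ++ v) := by
  rw [ev_append]
  have h1 : m * n - ev x u * ev x v = (m - ev x u) * n + ev x u * (n - ev x v) := by
    noncomm_ring
  rw [h1]
  exact AddSubgroup.add_mem _ (GT_mul_GE x hm (mem_GE_of_sub hn))
    (GE_mul_GT x (ev_mem_GE x u) hn)

/-- the bracketing of a Lyndon word -/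
theorem bracket {M : Set R} (hx : ∀ i, x i ∈ M) (hM : ∀ a ∈ M, ∀ b ∈ M, a * b - b * a ∈ M) :
    ∀ (n : ℕ) (w : List α), w.length = n → Lyndon w → ∃ m ∈ M, m - ev x w ∈ GT x w := by
  intro n
  induction n using Nat.strong_induction_on with
  | _ n ih =>
    intro w hn hw
    by_cases h2 : 2 ≤ w.length
    · obtain ⟨W, V, hWV, hW, hV, hlt⟩ := hw.exists_factorization h2
      have hl := congrArg List.length hWV
      rw [List.length_append] at hl
      have hW1 := List.length_pos_iff.2 hW.1
      have hV1 := List.length_pos_iff.2 hV.1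
      obtain ⟨m, hm, hm2⟩ := ih W.length (by omega) W rfl hW
      obtain ⟨k, hk, hk2⟩ := ih V.length (by omega) V rfl hV
      refine ⟨m * k - k * m, hM m hm k hk, ?_⟩
      rw [hWV]
      have h3 : m * k - k * m - ev x (W ++ V) = (m * k - ev x (W ++ V)) - k * m := by abel
      rw [h3]
      refine AddSubgroup.sub_mem _ (sub_mul hm2 hk2) ?_
      refine GE_le_GT x ?_ hlt (GE_mul_GE x (mem_GE_of_sub hk2) (mem_GE_of_sub hm2))
      rw [List.length_append, List.length_append, add_comm]
    · obtain ⟨a, rfl⟩ : ∃ a, w = [a] := by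
        refine List.length_eq_one_iff.1 ?_
        have := List.length_pos_iff.2 hw.1
        omega
      refine ⟨x a, hx a, ?_⟩
      have : ev x [a] = x a := by simp [ev]
      rw [this, sub_self]
      exact AddSubgroup.zero_mem _

theorem bad_mem {M : Set R} (hx : ∀ i, x i ∈ M) (hM : ∀ a ∈ M, ∀ b ∈ M, a * b - b * a ∈ M)
    (h1 : ∀ a ∈ M, a * a = 0) (h2 : ∀ a ∈ M, ∀ b ∈ M, a * b * a = 0) {w : List α} (hw : Bad w) :
    ev x w ∈ GT x w := by
  have key : ∀ f p q : List α, ev x f ∈ GT x f → ev x (p ++ f ++ q) ∈ GT x (p ++ f ++ q) := by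
    intro f p q hf
    rw [ev_append, ev_append]
    exact GT_mul_GE x (GE_mul_GT x (ev_mem_GE x p) hf) (ev_mem_GE x q)
  rcases hw with ⟨u, hu, p, q, rfl⟩ | ⟨u, v, hu, hv, p, q, rfl⟩
  · refine key _ p q ?_
    obtain ⟨m, hm, hm2⟩ := bracket hx hM _ u rfl hu
    have h3 := sub_mul hm2 hm2
    rw [h1 m hm, zero_sub] at h3
    exact (AddSubgroup.neg_mem_iff _).1 h3
  · refine key _ p q ?_
    obtain ⟨m, hm, hm2⟩ := bracket hx hM _ u rfl hu
    obtain ⟨k, hk, hk2⟩ := bracket hx hM _ v rfl hv
    have h3 := sub_mul (sub_mul hm2 hk2) hm2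
    rw [h2 m hm k hk, zero_sub] at h3
    exact (AddSubgroup.neg_mem_iff _).1 h3

end Algebra

/-- **Kostrikin-Zelmanov sandwich theorem**, linearly ordered alphabet -/
theorem sandwich' (α : Type*) [LinearOrder α] [Finite α] : ∃ N : ℕ, ∀ (R : Type*) [Ring R]
    (x : α → R) (M : Set R), (∀ i, x i ∈ M) → (∀ a ∈ M, ∀ b ∈ M, a * b - b * a ∈ M) →
    (∀ a ∈ M, a * a = 0) → (∀ a ∈ M, ∀ b ∈ M, a * b * a = 0) →
    ∀ w : List α, N ≤ w.length → (w.map x).prod = 0 := by
  obtain ⟨N, hN⟩ := unavoidable (α := α)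
  refine ⟨N, fun R _ x M hx hM h1 h2 => ?_⟩
  have key : ∀ w : List α, w.length = N → ev x w = 0 := by
    by_contra hcon
    push Not at hcon
    obtain ⟨w0, hw0, hw0'⟩ := hcon
    have hfin : {w : List α | w.length = N ∧ ev x w ≠ 0}.Finite :=
      (finite_words N).subset fun w hw => hw.1
    obtain ⟨w, hw, hmax⟩ := Set.exists_max_image _ id hfin ⟨w0, hw0, hw0'⟩
    refine hw.2 ?_
    have h3 := bad_mem hx hM h1 h2 (hN w hw.1.ge)
    have h4 : GT x w = ⊥ := by
      rw [eq_bot_iff]
      refine (AddSubgroup.closure_le _).2 ?_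
      rintro r ⟨w', h5, h6, rfl⟩
      by_contra h7
      have h8 : ev x w' ≠ 0 := h7
      exact absurd (hmax w' ⟨by rw [h5, hw.1], h8⟩) (not_le.2 h6)
    rw [h4] at h3
    exact h3
  intro w hw
  have h3 := key (w.take N) (by rw [List.length_take]; omega)
  have h4 : ev x w = ev x (w.take N) * ev x (w.drop N) := by
    rw [← ev_append, List.take_append_drop]
  have h5 : (w.map x).prod = ev x w := rfl
  rw [h5, h4, h3, zero_mul]

/-- **Kostrikin-Zelmanov sandwich theorem.** If `M` contains `x 1, ..., x n`, is closed under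
commutators and `a * a = 0`, `a * b * a = 0` for all `a, b ∈ M`, then all products of `N` of the
`x i` vanish, where `N` depends only on `n`. -/
theorem sandwich (n : ℕ) : ∃ N : ℕ, ∀ (R : Type*) [Ring R]
    (x : Fin n → R) (M : Set R), (∀ i, x i ∈ M) → (∀ a ∈ M, ∀ b ∈ M, a * b - b * a ∈ M) →
    (∀ a ∈ M, a * a = 0) → (∀ a ∈ M, ∀ b ∈ M, a * b * a = 0) →
    ∀ w : List (Fin n), N ≤ w.length → (w.map x).prod = 0 := sandwich' (Fin n)

end Pool.Agent.KZ
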